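import Pool.Graph.R_pool_sql_team_seeded_620a6dc7.H948_Strat.Base
import Pool.Graph.R_pool_sql_team_seeded_620a6dc7.H948_Strat.Tree

/-!
(3.4): the tower argument.
-/

set_option linter.unusedSectionVars false

open CategoryTheory Limits MonoidalCategory Pretriangulated

universe v u

namespace H380.ST

open H948

section

variable {C : Type u} [Category.{v} C] [Preadditive C] [HasZeroObject C] [HasShift C ℤ]
  [∀ n : ℤ, (shiftFunctor C n).Additive] [Pretriangulated C] [HasCoproducts.{v} C]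

/-- A stage of the tower over `z`. -/
structure Stg (T K : ObjectProperty C) (z : C) where
  zn : C
  q : zn ⟶ z
  hT : T zn
  hq : K.trW q

/-- the tower -/
lemma tower_exists [IsTriangulated C] (hz1 : S_z1 C) {T K : ObjectProperty C} (hS : PhSetting T K)
    (z : C) (hz : T z) :
    ∃ (st : ℕ → Stg T K z) (p : ∀ n, (st (n + 1)).zn ⟶ (st n).zn),
      (∀ n, (st (n + 1)).q = p n ≫ (st n).q) ∧
      ∀ n, ∀ (c : C) (ψ : c ⟶ (st n).zn), IsCpt c → (IsPh K ψ ↔ ∃ χ : c ⟶ (st (n + 1)).zn, ψ = χ ≫ p n) := by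
  have := hS.Ktri
  have := hS.Kiso
  have hnext : ∀ s : Stg T K z, ∃ (s' : Stg T K z) (p : s'.zn ⟶ s.zn), s'.q = p ≫ s.q ∧
      ∀ (c : C) (ψ : c ⟶ s.zn), IsCpt c → (IsPh K ψ ↔ ∃ χ : c ⟶ s'.zn, ψ = χ ≫ p) := by
    intro s
    obtain ⟨z', p, hz', hp, h⟩ := hz1 T K hS s.zn s.hT
    exact ⟨⟨z', p ≫ s.q, hz', MorphismProperty.comp_mem _ _ _ hp s.hq⟩, p, rfl, h⟩
  choose nx p hp hph using hnext
  let s0 : Stg T K z := ⟨z, 𝟙 z, hz, MorphismProperty.id_mem _ _⟩
  let st : ℕ → Stg T K z := fun n => Nat.rec s0 (fun _ s => nx s) n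
  exact ⟨st, fun n => p (st n), fun n => hp (st n), fun n => hph (st n)⟩

end

section

variable {C : Type u} [Category.{v} C] [Preadditive C] [HasZeroObject C] [HasShift C ℤ]
  [∀ n : ℤ, (shiftFunctor C n).Additive] [Pretriangulated C] [IsTriangulated C]
  [MonoidalCategory C] [SymmetricCategory C] [MonoidalClosed C] [TensorExact C] [HasCoproducts.{v} C]

lemma unc_zero (k c z : C) : MonoidalClosed.uncurry (0 : c ⟶ (ihom k).obj z) = 0 := by
  rw [MonoidalClosed.uncurry_eq, MonoidalPreadditive.whiskerLeft_zero, zero_comp]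

lemma unc_sub {k c z : C} (a b : c ⟶ (ihom k).obj z) :
    MonoidalClosed.uncurry (a - b) = MonoidalClosed.uncurry a - MonoidalClosed.uncurry b := by
  have := H948.tensorLeft_additive k
  have h : k ◁ (a - b) = k ◁ a - k ◁ b := (tensorLeft k).map_sub
  rw [MonoidalClosed.uncurry_eq, MonoidalClosed.uncurry_eq, MonoidalClosed.uncurry_eq, h,
    Preadditive.sub_comp]

lemma unc_inj {k c z : C} {a b : c ⟶ (ihom k).obj z}
    (h : MonoidalClosed.uncurry a = MonoidalClosed.uncurry b) : a = b :=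
  MonoidalClosed.uncurry_injective h

lemma unc_map {k c z z' : C} (a : c ⟶ (ihom k).obj z) (g : z ⟶ z') :
    MonoidalClosed.uncurry (a ≫ (ihom k).map g) = MonoidalClosed.uncurry a ≫ g :=
  MonoidalClosed.uncurry_natural_right _ _

theorem tower (hR : RPkg C) (hz1 : S_z1 C) (hct : S_cptTri C) : S_tower C := by
  intro T K hS k hk hKG hvan z hz
  have hprods : HasProducts.{v} C := hR.prods
  have := hS.Ktri
  have := hS.Kiso
  obtain ⟨st, p, hqp, hph⟩ := tower_exists hz1 hS z hz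
  -- the cones
  have hcone : ∀ n, ∃ (w : C) (u : z ⟶ w) (d : w ⟶ (st n).zn⟦(1 : ℤ)⟧),
      Triangle.mk (st n).q u d ∈ distTriang C ∧ K w := by
    intro n
    obtain ⟨w, u, d, h, hK⟩ := (st n).hq
    exact ⟨w, u, d, h, hK⟩
  choose w u d hTw hKw using hcone
  -- the maps between the cones
  have hr : ∀ n, ∃ r : w (n + 1) ⟶ w n, u (n + 1) ≫ r = u n ∧
      r ≫ d n = d (n + 1) ≫ (p n)⟦(1 : ℤ)⟧' := by
    intro n
    obtain ⟨r, h1, h2⟩ := complete_distinguished_triangle_morphism _ _ (hTw (n + 1)) (hTw n)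
      (p n) (𝟙 z) (by
        change (st (n + 1)).q ≫ 𝟙 z = p n ≫ (st n).q
        rw [Category.comp_id, hqp])
    refine ⟨r, ?_, ?_⟩
    · exact h1.trans (Category.id_comp _)
    · exact h2.symm
  choose r hur hrd using hr
  -- exactness of the triangles
  have hux : ∀ n {c : C} (x : c ⟶ z), x ≫ u n = 0 → ∃ y : c ⟶ (st n).zn, x = y ≫ (st n).q := by
    intro n c x hx
    obtain ⟨y, hy⟩ := Triangle.coyoneda_exact₂ _ (hTw n) x hx
    exact ⟨y, hy⟩
  have hdx : ∀ n {c : C} (x : c ⟶ w n), x ≫ d n = 0 → ∃ y : c ⟶ z, x = y ≫ u n := by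
    intro n c x hx
    obtain ⟨y, hy⟩ := Triangle.coyoneda_exact₃ _ (hTw n) x hx
    exact ⟨y, hy⟩
  -- vanishing
  have hF : ∀ (c : C), IsCpt c → ∀ (n : ℕ) (χ : k ⊗ c ⟶ (st (n + 1)).zn), χ ≫ p n = 0 := by
    intro c hc n χ
    refine hvan c _ _ hc (st n).hT ?_
    exact (hph n _ _ (hR.cpt_tensor hk hc)).2 ⟨χ, rfl⟩
  have hcsh : ∀ (c : C) (n : ℤ), IsCpt c → IsCpt (c⟦n⟧) := by
    intro c n hc
    have := hct.2.1
    exact ObjectProperty.le_shift (C := C) IsCpt n c hc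
  have hF1 : ∀ (c : C), IsCpt c → ∀ (n : ℕ) (χ : k ⊗ c ⟶ (st (n + 1)).zn⟦(1 : ℤ)⟧),
      χ ≫ (p n)⟦(1 : ℤ)⟧' = 0 := by
    intro c hc n χ
    obtain ⟨e⟩ := tensorShift k (c⟦(-1 : ℤ)⟧) 1
    let e' : (k ⊗ c⟦(-1 : ℤ)⟧)⟦(1 : ℤ)⟧ ≅ k ⊗ c :=
      e.symm ≪≫ whiskerLeftIso k ((shiftFunctorCompIsoId C (-1) 1 (by simp)).app c)
    obtain ⟨χ', hχ'⟩ := (shiftFunctor C (1 : ℤ)).map_surjective (e'.hom ≫ χ)
    rw [← cancel_epi e'.hom, comp_zero, ← Category.assoc, ← hχ', ← Functor.map_comp,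
      hF _ (hcsh c (-1) hc), Functor.map_zero]
  -- the functor `G = [k, -]` and the product
  let G := ihom k
  let F : ULift.{v} ℕ → C := fun n => G.obj (w n.down)
  let P : C := ∏ᶜ F
  have hKP : K P := hS.Kprod _ F (limit.cone (Discrete.functor F)) ⟨limit.isLimit _⟩
    (fun n => hKG _ (hKw n.down))
  let π : ∀ n : ℕ, P ⟶ G.obj (w n) := fun n => Pi.π F ⟨n⟩
  let sh : P ⟶ P := Pi.lift (fun n : ULift.{v} ℕ => π (n.down + 1) ≫ G.map (r n.down))
  have hsh : ∀ n : ℕ, sh ≫ π n = π (n + 1) ≫ G.map (r n) := by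
    intro n
    exact limit.lift_π _ _
  have hext : ∀ {c : C} (x y : c ⟶ P), (∀ n, x ≫ π n = y ≫ π n) → x = y := by
    intro c x y h
    exact Pi.hom_ext _ _ (fun n => h n.down)
  obtain ⟨W, i, δ, hW⟩ := distinguished_cocone_triangle₁ (𝟙 P - sh)
  have hKW : K W := K.ext_of_isTriangulatedClosed₁ _ hW hKP hKP
  let v : G.obj z ⟶ P := Pi.lift (fun n : ULift.{v} ℕ => G.map (u n.down))
  have hv : ∀ n : ℕ, v ≫ π n = G.map (u n) := by
    intro n
    exact limit.lift_π _ _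
  have hv0 : v ≫ (𝟙 P - sh) = 0 := by
    apply hext
    intro n
    rw [zero_comp, Category.assoc, Preadditive.sub_comp, Category.id_comp, hsh, Preadditive.comp_sub,
      hv, ← Category.assoc, hv, ← Functor.map_comp, hur, sub_self]
  obtain ⟨v', hv'⟩ : ∃ v' : G.obj z ⟶ W, v = v' ≫ i := Triangle.coyoneda_exact₂ _ hW v hv0
  -- injectivity
  have hinj : ∀ (c : C), IsCpt c → ∀ a : c ⟶ G.obj z, a ≫ v' = 0 → a = 0 := by
    intro c hc a ha
    have h1 : a ≫ G.map (u 1) = 0 := by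
      rw [← hv 1, hv', ← Category.assoc, ← Category.assoc, ha, zero_comp, zero_comp]
    have h2 : MonoidalClosed.uncurry a ≫ u 1 = 0 := by
      rw [← unc_map, h1, unc_zero]
    obtain ⟨b, hb⟩ := hux 1 _ h2
    apply unc_inj
    rw [hb, hqp 0, ← Category.assoc, hF c hc 0 b, zero_comp, unc_zero]
  -- maps to `w n` coming from `w (n + 1)`
  have hlift : ∀ (c : C), IsCpt c → ∀ (n : ℕ) (x : k ⊗ c ⟶ w (n + 1)),
      ∃ a : k ⊗ c ⟶ z, x ≫ r n = a ≫ u n := by
    intro c hc n x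
    apply hdx
    rw [Category.assoc, hrd, ← Category.assoc]
    exact hF1 c hc n _
  -- surjectivity of `1 - sh`
  have hsurj1 : ∀ (c : C), IsCpt c → ∀ x : c ⟶ P, ∃ y : c ⟶ P, x = y ≫ (𝟙 P - sh) := by
    intro c hc x
    let ξ : ∀ n : ℕ, k ⊗ c ⟶ w n := fun n => MonoidalClosed.uncurry (x ≫ π n)
    choose a ha using fun n => hlift c hc n (ξ (n + 1))
    let e : ℕ → (k ⊗ c ⟶ z) := fun n => Nat.rec 0 (fun n e => e - a n) n
    have he : ∀ n, e (n + 1) = e n - a n := fun n => rfl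
    let η : ∀ n : ℕ, k ⊗ c ⟶ w n := fun n => ξ n + e n ≫ u n
    let y : c ⟶ P := Pi.lift (fun n : ULift.{v} ℕ => MonoidalClosed.curry (η n.down))
    have hy : ∀ n : ℕ, y ≫ π n = MonoidalClosed.curry (η n) := by
      intro n
      exact limit.lift_π _ _
    refine ⟨y, ?_⟩
    apply hext
    intro n
    apply unc_inj
    rw [Category.assoc, Preadditive.sub_comp, Category.id_comp, hsh, Preadditive.comp_sub, hy,
      ← Category.assoc, hy, unc_sub, unc_map, MonoidalClosed.uncurry_curry,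
      MonoidalClosed.uncurry_curry]
    change ξ n = (ξ n + e n ≫ u n) - (ξ (n + 1) + e (n + 1) ≫ u (n + 1)) ≫ r n
    rw [Preadditive.add_comp, Category.assoc, hur, ha, he, Preadditive.sub_comp]
    abel
  -- surjectivity
  have hsurj : ∀ (c : C), IsCpt c → ∀ h : c ⟶ W, ∃ a : c ⟶ G.obj z, h = a ≫ v' := by
    intro c hc h
    have h12 : i ≫ (𝟙 P - sh) = 0 := comp_distTriang_mor_zero₁₂ _ hW
    let γ : ∀ n : ℕ, k ⊗ c ⟶ w n := fun n => MonoidalClosed.uncurry ((h ≫ i) ≫ π n)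
    have hγ : ∀ n, γ (n + 1) ≫ r n = γ n := by
      intro n
      have h1 : (h ≫ i) ≫ (𝟙 P - sh) = 0 := by rw [Category.assoc, h12, comp_zero]
      have h2 := h1 =≫ π n
      rw [zero_comp, Category.assoc, Preadditive.sub_comp, Category.id_comp, hsh,
        Preadditive.comp_sub, sub_eq_zero, ← Category.assoc] at h2
      change MonoidalClosed.uncurry ((h ≫ i) ≫ π (n + 1)) ≫ r n = MonoidalClosed.uncurry ((h ≫ i) ≫ π n)
      rw [h2, unc_map]
    choose α hα using fun n => hlift c hc n (γ (n + 1))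
    have hα' : ∀ n, γ n = α n ≫ u n := by
      intro n
      rw [← hγ, hα]
    have hdiff : ∀ n, α (n + 1) = α (n + 2) := by
      intro n
      have h1 : (α (n + 1) - α (n + 2)) ≫ u (n + 1) = 0 := by
        rw [Preadditive.sub_comp, sub_eq_zero, ← hα', ← hγ (n + 1), hα' (n + 2), Category.assoc, hur]
      obtain ⟨b, hb⟩ := hux (n + 1) _ h1
      rw [hqp n, ← Category.assoc, hF c hc n b, zero_comp] at hb
      exact sub_eq_zero.1 hb
    have hconst : ∀ n, α (n + 1) = α 1 := by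
      intro n
      induction n with
      | zero => rfl
      | succ n ih => rw [← hdiff n, ih]
    have hall : ∀ n, γ n = α 1 ≫ u n := by
      intro n
      cases n with
      | zero => rw [← hγ 0, hα' 1, Category.assoc, hur]
      | succ n => rw [hα' (n + 1), hconst]
    let a : c ⟶ G.obj z := MonoidalClosed.curry (α 1)
    have hav : a ≫ v = h ≫ i := by
      apply hext
      intro n
      apply unc_inj
      rw [Category.assoc, hv, unc_map, MonoidalClosed.uncurry_curry]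
      exact (hall n).symm
    refine ⟨a, ?_⟩
    have h0 : (h - a ≫ v')⟦(1 : ℤ)⟧' ≫ i⟦(1 : ℤ)⟧' = 0 := by
      rw [← Functor.map_comp, Preadditive.sub_comp, Category.assoc, ← hv', hav, sub_self,
        Functor.map_zero]
    obtain ⟨m, hm⟩ : ∃ m : c⟦(1 : ℤ)⟧ ⟶ P, (h - a ≫ v')⟦(1 : ℤ)⟧' = m ≫ δ :=
      Triangle.coyoneda_exact₁ _ hW _ h0
    obtain ⟨y, hy⟩ := hsurj1 _ (hcsh c 1 hc) m
    have h23 : (𝟙 P - sh) ≫ δ = 0 := comp_distTriang_mor_zero₂₃ _ hW
    rw [hy, Category.assoc, h23, comp_zero] at hm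
    have h4 : h - a ≫ v' = 0 := (shiftFunctor C (1 : ℤ)).map_injective (by rw [hm, Functor.map_zero])
    exact sub_eq_zero.1 h4
  -- conclusion
  obtain ⟨Q, s, t, hQ⟩ := distinguished_cocone_triangle v'
  have hQ0 : IsZero Q := by
    apply hR.gen
    intro c f hc
    have hinj1 : ∀ b : c ⟶ (G.obj z)⟦(1 : ℤ)⟧, b ≫ v'⟦(1 : ℤ)⟧' = 0 → b = 0 := by
      intro b hb
      let e : (c⟦(-1 : ℤ)⟧)⟦(1 : ℤ)⟧ ≅ c := (shiftFunctorCompIsoId C (-1) 1 (by simp)).app c
      obtain ⟨b', hb'⟩ := (shiftFunctor C (1 : ℤ)).map_surjective (e.hom ≫ b)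
      have h1 : b' ≫ v' = 0 := by
        apply (shiftFunctor C (1 : ℤ)).map_injective
        rw [Functor.map_comp, hb', Category.assoc, hb, comp_zero, Functor.map_zero]
      have h2 := hinj _ (hcsh c (-1) hc) b' h1
      rw [h2, Functor.map_zero] at hb'
      rw [← cancel_epi e.hom, comp_zero, ← hb']
    have h1 : f ≫ t = 0 := by
      apply hinj1
      rw [Category.assoc]
      have h31 : t ≫ v'⟦(1 : ℤ)⟧' = 0 := comp_distTriang_mor_zero₃₁ _ hQ
      rw [h31, comp_zero]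
    obtain ⟨g, hg⟩ : ∃ g : c ⟶ W, f = g ≫ s := Triangle.coyoneda_exact₃ _ hQ f h1
    obtain ⟨a, ha⟩ := hsurj c hc g
    have h12 : v' ≫ s = 0 := comp_distTriang_mor_zero₁₂ _ hQ
    rw [hg, ha, Category.assoc, h12, comp_zero]
  have hiso : IsIso v' := (Triangle.isZero₃_iff_isIso₁ _ hQ).1 hQ0
  exact K.prop_of_iso (asIso v').symm hKW

end

end H380.ST
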